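import Mathlib
import Pool.Agent.Lib_helper3.CNT2.Final

/-!
Number fields of odd degree with a closed cycle of four conics: one of eight polynomials takes both
signs more than `x / 4` times in `[x, C x^2]`.
-/

namespace Pool.Agent.Lib_helper73.DEG

open Pool.Agent.Lib_helper11.CUB Pool.Agent.Lib_helper3.QUI Polynomial
open Pool.Agent.Lib_helper48.EVEN (Gen gen_affine gen_sq affine_not_mem list_family)
open Pool.Agent.Lib_helper48.CNT (exc mem_exc Maj Ev Ev.and Ev.imp Ev.sub Ev.signs windows_count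
  gen_poly gen_cubic gen_neg)
open Pool.Agent.Lib_helper3.CNT2

variable {K : Type*} [Field K] [NumberField K]

theorem gen_of_sq {u : K} (hu : Gen (u ^ 2)) : Gen u := by
  unfold Gen at *
  have h1 : IsIntegral ℚ u := Algebra.IsIntegral.isIntegral u
  have h2 : IsIntegral ℚ (u ^ 2) := Algebra.IsIntegral.isIntegral (u ^ 2)
  rw [← IntermediateField.adjoin.finrank h2] at hu
  rw [← IntermediateField.adjoin.finrank h1]
  have h3 : IntermediateField.adjoin ℚ {u ^ 2} = (⊤ : IntermediateField ℚ K) := by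
    apply IntermediateField.eq_of_le_of_finrank_le le_top
    rw [IntermediateField.finrank_top', hu]
  have h4 : IntermediateField.adjoin ℚ {u} = (⊤ : IntermediateField ℚ K) := by
    rw [eq_top_iff, ← h3, IntermediateField.adjoin_simple_le_iff]
    exact pow_mem (IntermediateField.mem_adjoin_simple_self ℚ u) 2
  rw [h4, IntermediateField.finrank_top']

theorem gen_next (hd : Odd (Module.finrank ℚ K)) {u v : K} (hu : Gen u) {q α c : ℚ} (hq : 0 < q)
    (e : v ^ 2 = (q : K) * (u + (α : K)) ^ 2 + (c : K)) : Gen v := by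
  apply gen_of_sq
  rw [e]
  apply gen_affine _ hq.ne'
  apply gen_sq hd
  have := gen_affine hu (r := 1) one_ne_zero α
  simpa using this

/-- A closed cycle of four conics. -/
theorem count_cycle4 (hd : Odd (Module.finrank ℚ K)) (h1 : 1 < Module.finrank ℚ K)
    {w0 w1 w2 w3 : K} (g0 : Gen w0) {q0 q1 q2 q3 a0 a1 a2 a3 c0 c1 c2 c3 : ℚ}
    (hq0 : 0 < q0) (hq1 : 0 < q1) (hq2 : 0 < q2) (hq3 : 0 < q3)
    (e0 : w1 ^ 2 = (q0 : K) * (w0 + (a0 : K)) ^ 2 + (c0 : K))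
    (e1 : w2 ^ 2 = (q1 : K) * (w1 + (a1 : K)) ^ 2 + (c1 : K))
    (e2 : w3 ^ 2 = (q2 : K) * (w2 + (a2 : K)) ^ 2 + (c2 : K))
    (e3 : w0 ^ 2 = (q3 : K) * (w3 + (a3 : K)) ^ 2 + (c3 : K))
    {p : ℕ} (hp : p.Prime) {r : ℚ} (hr : r ≠ 0) (hprod : q0 * q1 * q2 * q3 = p * (r * r)) :
    ∃ g : Fin 8 → ℤ[X], (∀ i, (g i).Monic ∧ Irreducible (g i) ∧
      (g i).natDegree = Module.finrank ℚ K) ∧ ∃ C : ℕ, ∀ h : ℕ → ℤ, CM h → h p = -1 →
        ∀ x : ℕ, 1 ≤ x → ∃ i, ∀ s : ℤ, (s = 1 ∨ s = -1) →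
          x < 4 * ((Finset.Icc x (C * x ^ 2)).filter (fun n : ℕ =>
            h ((g i).eval (n : ℤ)).natAbs = s)).card := by
  have g1 : Gen w1 := gen_next hd g0 hq0 e0
  have g2 : Gen w2 := gen_next hd g1 hq1 e1
  have g3 : Gen w3 := gen_next hd g2 hq2 e2
  have s0 : Path (w1 ^ 2) (w0 ^ 2) (fun h => H h q0) 2 :=
    Path.step hd h1 g0 (gen_sq hd g1) hq0 (α' := 0) (c' := 0) e0 (by push_cast; ring)
  have s1 : Path (w2 ^ 2) (w1 ^ 2) (fun h => H h q1) 2 :=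
    Path.step hd h1 g1 (gen_sq hd g2) hq1 (α' := 0) (c' := 0) e1 (by push_cast; ring)
  have s2 : Path (w3 ^ 2) (w2 ^ 2) (fun h => H h q2) 2 :=
    Path.step hd h1 g2 (gen_sq hd g3) hq2 (α' := 0) (c' := 0) e2 (by push_cast; ring)
  have s3 : Path (w0 ^ 2) (w3 ^ 2) (fun h => H h q3) 2 :=
    Path.step hd h1 g3 (gen_sq hd g0) hq3 (α' := 0) (c' := 0) e3 (by push_cast; ring)
  have full : Path (w0 ^ 2) (w0 ^ 2) (fun h => H h q3 * H h q2 * H h q1 * H h q0) 8 :=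
    ((s3.trans s2).trans s1).trans s0
  obtain ⟨L, hL, hG, hmem, hE⟩ := full.close
  obtain ⟨m, hm, H'⟩ := windows_count hd h1 hG hE
  obtain ⟨hint, C, H'⟩ := H' m hm dvd_rfl
  obtain ⟨y, hy1, hy2⟩ := list_family hL (List.ne_nil_of_mem hmem)
  have hlabel : ∀ h : ℕ → ℤ, CM h → h p = -1 → H h q3 * H h q2 * H h q1 * H h q0 = -1 := by
    intro h hh hhp
    have k1 := H_mul hh (mul_ne_zero (mul_ne_zero hq0.ne' hq1.ne') hq2.ne') hq3.ne'
    rw [H_mul hh (mul_ne_zero hq0.ne' hq1.ne') hq2.ne', H_mul hh hq0.ne' hq1.ne', hprod,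
      H_mul hh (by exact_mod_cast hp.ne_zero) (mul_ne_zero hr hr), H_mul hh hr hr, H_sq hh hr,
      H_nat hh, hhp] at k1
    linarith
  refine ⟨fun i => minpoly ℤ ((m : K) * y i), fun i => ?_, C, fun h hh hhp x hx => ?_⟩
  · obtain ⟨a, b, c⟩ := gen_poly (hG _ (hy1 i)) hm (hint _ (hy1 i))
    exact ⟨a, b, c⟩
  · obtain ⟨z, hz, H''⟩ := H' h hh (by
      rw [hlabel h hh hhp]
      norm_num) x hx
    obtain ⟨i, rfl⟩ := hy2 z hz
    exact ⟨i, H''⟩

end Pool.Agent.Lib_helper73.DEG
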