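import Mathlib

/-!
An irreducibility test for monic polynomials over `ZMod l`: trial division, by lists of natural
numbers.
-/

namespace Pool.Agent.Lib_helper73.DEG

open Polynomial

/-- One step: for residues modulo `X ^ k - ∑ c i X ^ i`, `v ↦ X v + a`, where `t` is the last entry
of `v`. -/
def stp (l t : ℕ) : ℕ → List ℕ → List ℕ → List ℕ
  | _, [], _ => []
  | a, c :: cs, [] => ((a + c * t) % l) :: stp l t 0 cs []
  | a, c :: cs, v :: vs => ((a + c * t) % l) :: stp l t v cs vs

/-- the last entry -/
def lst : ℕ → List ℕ → ℕ
  | a, [] => a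
  | _, v :: vs => lst v vs

/-- Horner's scheme -/
def hrn (l : ℕ) (c : List ℕ) : List ℕ → List ℕ → List ℕ
  | [], v => v
  | a :: as, v => hrn l c as (stp l (lst 0 v) a c v)

/-- all lists of length `k` with entries less than `l`, before `acc` -/
def allc (l : ℕ) (p : List ℕ → Bool) : ℕ → List ℕ → Bool
  | 0, acc => p acc
  | k + 1, acc => (List.range l).all fun a => allc l p k (a :: acc)

/-- `f` (coefficients, the highest one first) has no monic factor of degree `k` modulo `l`. -/
def nofac (l : ℕ) (f : List ℕ) (k : ℕ) : Bool :=
  allc l (fun c => !((hrn l c f (List.replicate k 0)).all fun a => a == 0)) k []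

variable (l : ℕ)

/-- the polynomial with the coefficients `v`, the lowest one first -/
noncomputable def toP : List ℕ → (ZMod l)[X]
  | [] => 0
  | v :: vs => C (v : ZMod l) + X * toP vs

variable {l}

theorem stp_length (t : ℕ) : ∀ (a : ℕ) (c v : List ℕ), (stp l t a c v).length = c.length
  | _, [], _ => rfl
  | a, c :: cs, [] => by simp [stp, stp_length t 0 cs []]
  | a, c :: cs, v :: vs => by simp [stp, stp_length t v cs vs]

theorem toP_stp (t : ℕ) : ∀ (a : ℕ) (c v : List ℕ), v.length = c.length →
    C (a : ZMod l) + X * toP l v = toP l (stp l t a c v) - C (t : ZMod l) * toP l c +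
      X ^ c.length * C ((lst a v : ℕ) : ZMod l)
  | a, [], [], _ => by simp [stp, toP, lst]
  | a, c :: cs, v :: vs, h => by
    have ih := toP_stp t v cs vs (by simpa using h)
    simp only [stp, toP, lst, List.length_cons, pow_succ]
    rw [ih]
    simp only [ZMod.natCast_mod, Nat.cast_add, Nat.cast_mul, C_add, C_mul]
    ring

/-- the polynomial with the coefficients `f`, the highest one first, added to `X ^ _ * q` -/
noncomputable def hi (q : (ZMod l)[X]) : List ℕ → (ZMod l)[X]
  | [] => q
  | a :: as => hi (X * q + C (a : ZMod l)) as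

theorem lst_eq (v : List ℕ) (hv : v ≠ []) (a b : ℕ) : lst a v = lst b v := by
  cases v with
  | nil => exact absurd rfl hv
  | cons x xs => rfl

theorem hrn_length (c : List ℕ) : ∀ (f v : List ℕ), v.length = c.length →
    (hrn l c f v).length = c.length
  | [], v, h => h
  | a :: as, v, _ => hrn_length c as _ (stp_length _ _ _ _)

theorem hrn_dvd (c : List ℕ) (hc : c ≠ []) : ∀ (f v : List ℕ) (q : (ZMod l)[X]), v.length = c.length →
    (X ^ c.length - toP l c ∣ q - toP l v) → (X ^ c.length - toP l c ∣ hi q f - toP l (hrn l c f v))
  | [], v, q, _, hq => hq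
  | a :: as, v, q, h, hq => by
    apply hrn_dvd c hc as _ _ (stp_length _ _ _ _)
    have hv : v ≠ [] := by
      intro h0
      rw [h0] at h
      exact hc (List.length_eq_zero_iff.1 h.symm)
    have e := toP_stp (l := l) (lst 0 v) a c v h
    rw [lst_eq v hv a 0] at e
    have e2 : X * q + C (a : ZMod l) - toP l (stp l (lst 0 v) a c v) =
        X * (q - toP l v) + (X ^ c.length - toP l c) * C ((lst 0 v : ℕ) : ZMod l) := by
      linear_combination e
    rw [e2]
    exact dvd_add (Dvd.dvd.mul_left hq _) (Dvd.intro _ rfl)

theorem toP_degree [Fact (1 < l)] : ∀ v : List ℕ, (toP l v).degree < v.length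
  | [] => by simp [toP]
  | v :: vs => by
    have ih := toP_degree vs
    rw [toP, List.length_cons]
    refine lt_of_le_of_lt (degree_add_le _ _) (max_lt ?_ ?_)
    · refine lt_of_le_of_lt degree_C_le ?_
      exact_mod_cast Nat.succ_pos _
    · rw [mul_comm, degree_mul_X]
      push_cast
      rcases eq_or_ne (toP l vs) 0 with h | h
      · rw [h, degree_zero]
        simp only [WithBot.bot_add]
        exact WithBot.bot_lt_coe _
      · rw [degree_eq_natDegree h] at ih ⊢
        have : (toP l vs).natDegree < vs.length := by exact_mod_cast ih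
        exact_mod_cast Nat.succ_lt_succ this

theorem toP_coeff : ∀ (v : List ℕ) (i : ℕ), (toP l v).coeff i = ((v.getD i 0 : ℕ) : ZMod l)
  | [], i => by simp [toP]
  | v :: vs, 0 => by simp [toP]
  | v :: vs, i + 1 => by
    rw [toP, coeff_add, coeff_X_mul, toP_coeff vs i, coeff_C_succ]
    simp

theorem allc_iff (p : List ℕ → Bool) : ∀ (k : ℕ) (acc : List ℕ), allc l p k acc = true →
    ∀ c : List ℕ, c.length = k → (∀ a ∈ c, a < l) → p (c ++ acc) = true
  | 0, acc, h, c, hc, _ => by
    rw [List.length_eq_zero_iff.1 hc]
    exact h
  | k + 1, acc, h, c, hc, hl => by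
    obtain ⟨cs, a, rfl⟩ : ∃ cs a, c = cs ++ [a] := by
      rcases List.eq_nil_or_concat c with h0 | ⟨cs, a, h0⟩
      · rw [h0] at hc
        simp at hc
      · exact ⟨cs, a, by rw [h0]; simp⟩
    rw [List.append_assoc, List.singleton_append]
    have hall : ∀ a < l, allc l p k (a :: acc) = true := by
      have := h
      rw [allc, List.all_eq_true] at this
      intro a ha
      exact this a (List.mem_range.2 ha)
    refine allc_iff p k (a :: acc) (hall a (hl a (by simp))) cs (by simpa using hc) ?_
    intro b hb
    exact hl b (List.mem_append_left _ hb)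

theorem hrn_lt (c : List ℕ) (hl : 0 < l) : ∀ (f v : List ℕ), (∀ a ∈ v, a < l) →
    ∀ a ∈ hrn l c f v, a < l
  | [], v, h => h
  | b :: bs, v, _ => by
    apply hrn_lt c hl bs
    have : ∀ (t a : ℕ) (c v : List ℕ), ∀ x ∈ stp l t a c v, x < l := by
      intro t a c
      induction c generalizing a with
      | nil => intro v x hx; simp [stp] at hx
      | cons c cs ih =>
        intro v x hx
        cases v with
        | nil =>
          simp only [stp, List.mem_cons] at hx
          rcases hx with rfl | hx
          · exact Nat.mod_lt _ hl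
          · exact ih _ _ _ hx
        | cons v vs =>
          simp only [stp, List.mem_cons] at hx
          rcases hx with rfl | hx
          · exact Nat.mod_lt _ hl
          · exact ih _ _ _ hx
    exact this _ _ _ _

theorem irreducible_of_nofac (hl : l.Prime) {f : List ℕ} {F : (ZMod l)[X]} (hF : hi 0 f = F)
    (hm : F.Monic) (h1 : 1 < F.natDegree) (h : ∀ k, 1 ≤ k → k ≤ F.natDegree / 2 → nofac l f k = true) :
    Irreducible F := by
  have : Fact l.Prime := ⟨hl⟩
  have : Fact (1 < l) := ⟨hl.one_lt⟩
  have : NeZero l := ⟨hl.ne_zero⟩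
  rw [hm.irreducible_iff_natDegree']
  refine ⟨fun h0 => ?_, fun g' g _ hg hgg hmem => ?_⟩
  · rw [h0, natDegree_one] at h1
    omega
  · obtain ⟨k1, k2⟩ := Finset.mem_Ioc.1 hmem
    set k := g.natDegree with hk
    set c : List ℕ := (List.range k).map fun i => (-(g.coeff i)).val with hc
    have hlen : c.length = k := by rw [hc]; simp
    have hc0 : c ≠ [] := by
      intro h0
      rw [h0] at hlen
      simp at hlen
      omega
    have hgc : X ^ c.length - toP l c = g := by
      ext i
      rw [coeff_sub, coeff_X_pow, toP_coeff, hlen, hc]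
      rcases lt_trichotomy i k with h' | h' | h'
      · rw [if_neg h'.ne, List.getD_eq_getElem _ _ (by simpa using h')]
        simp
      · rw [if_pos h', List.getD_eq_default _ _ (by simp [h']), Nat.cast_zero, sub_zero, h']
        exact hg.leadingCoeff.symm
      · rw [if_neg h'.ne', List.getD_eq_default _ _ (by simp; omega), Nat.cast_zero, sub_zero]
        exact (coeff_eq_zero_of_natDegree_lt h').symm
    have hd := hrn_dvd (l := l) c hc0 f (List.replicate k 0) 0 (by simp [hlen]) (by
      have : toP l (List.replicate k 0) = 0 := by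
        ext i
        rw [toP_coeff]
        simp
      rw [this, sub_zero]
      exact dvd_zero _)
    rw [hgc, hF] at hd
    have hd2 : g ∣ toP l (hrn l c f (List.replicate k 0)) := by
      have := dvd_sub (Dvd.intro_left g' hgg) hd
      simpa using this
    have hlen2 : (hrn l c f (List.replicate k 0)).length = k := by
      rw [hrn_length _ _ _ (by simp [hlen]), hlen]
    have hz : toP l (hrn l c f (List.replicate k 0)) = 0 := by
      apply eq_zero_of_dvd_of_degree_lt hd2
      rw [degree_eq_natDegree hg.ne_zero]
      have := toP_degree (l := l) (hrn l c f (List.replicate k 0))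
      rw [hlen2] at this
      exact this
    have hall : (hrn l c f (List.replicate k 0)).all (fun a => a == 0) = true := by
      rw [List.all_eq_true]
      intro a ha
      obtain ⟨i, hi, rfl⟩ := List.getElem_of_mem ha
      have h3 := congrArg (fun q => q.coeff i) hz
      simp only [toP_coeff, coeff_zero] at h3
      rw [List.getD_eq_getElem _ _ hi] at h3
      have h4 := (ZMod.natCast_eq_zero_iff _ _).1 h3
      have h5 := hrn_lt c hl.pos f (List.replicate k 0) (by
        intro a ha
        rw [List.mem_replicate] at ha
        rw [ha.2]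
        exact hl.pos) _ ha
      simpa using Nat.eq_zero_of_dvd_of_lt h4 h5
    have h6 := allc_iff _ k [] (h k (by omega) k2) c hlen (by
      intro a ha
      rw [hc, List.mem_map] at ha
      obtain ⟨i, -, rfl⟩ := ha
      exact ZMod.val_lt _)
    rw [List.append_nil, hall] at h6
    simp at h6

end Pool.Agent.Lib_helper73.DEG
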