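import Mathlib
import Pool.Agent.Lib_helper73.DEG.Irr
import Pool.Agent.Lib_helper48.EVEN.Nodes

/-!
Number fields given by a monic polynomial which is irreducible modulo a small prime.
-/

namespace Pool.Agent.Lib_helper73.DEG

open Polynomial
open Pool.Agent.Lib_helper48.EVEN (Gen)

/-- the polynomial with the coefficients `as`, the highest one first, added to `X ^ _ * q` -/
noncomputable def hz (q : ℤ[X]) : List ℤ → ℤ[X]
  | [] => q
  | a :: as => hz (X * q + C a) as

theorem hz_monic : ∀ (as : List ℤ) (q : ℤ[X]), q.Monic →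
    (hz q as).Monic ∧ (hz q as).natDegree = q.natDegree + as.length
  | [], q, h => ⟨h, rfl⟩
  | a :: as, q, h => by
    have h1 : (C a : ℤ[X]).degree < (X * q).degree := by
      rw [degree_eq_natDegree (monic_X.mul h).ne_zero, monic_X.natDegree_mul h, natDegree_X]
      refine lt_of_le_of_lt degree_C_le ?_
      exact_mod_cast Nat.lt_of_lt_of_le Nat.zero_lt_one (Nat.le_add_right _ _)
    have h2 : (X * q + C a).Monic := (monic_X.mul h).add_of_left h1
    have h3 : (X * q + C a).natDegree = q.natDegree + 1 := by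
      rw [natDegree_add_eq_left_of_degree_lt h1, monic_X.natDegree_mul h, natDegree_X, add_comm]
    obtain ⟨k1, k2⟩ := hz_monic as _ h2
    exact ⟨k1, by rw [hz, k2, h3, List.length_cons]; ring⟩

theorem hz_map {l : ℕ} (hl : l ≠ 0) : ∀ (as : List ℤ) (q : ℤ[X]),
    (hz q as).map (Int.castRingHom (ZMod l)) =
      hi (q.map (Int.castRingHom (ZMod l))) (as.map fun a : ℤ => (a % (l : ℤ)).toNat)
  | [], q => rfl
  | a :: as, q => by
    rw [hz, hz_map hl as, List.map_cons, hi, Polynomial.map_add, Polynomial.map_mul, map_X, map_C]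
    congr 2
    congr 1
    have h1 : (((a % l).toNat : ℤ) : ZMod l) = ((a % l : ℤ) : ZMod l) := by
      rw [Int.toNat_of_nonneg (Int.emod_nonneg _ (by exact_mod_cast hl))]
    rw [eq_intCast, ← Int.cast_natCast (R := ZMod l), h1]
    exact (ZMod.intCast_mod a l).symm

theorem hz_aeval {K : Type*} [Field K] [NumberField K] (x : K) : ∀ (as : List ℤ) (q : ℤ[X]),
    aeval x (hz q as) = as.foldl (fun (v : K) (a : ℤ) => x * v + (a : K)) (aeval x q)
  | [], q => rfl
  | a :: as, q => by
    rw [hz, hz_aeval x as, List.foldl_cons]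
    simp

theorem field_of_root {K : Type} [Field K] [CharZero K] (A : Algebra ℚ K) {P : ℚ[X]}
    (hP : Irreducible P) (hm : P.Monic) (x : K) (hx : @aeval ℚ K _ _ A x P = 0)
    (hfin : @Module.finrank ℚ K _ _ A.toModule = P.natDegree)
    (hfd : @Module.Finite ℚ K _ _ A.toModule) :
    ∃ _ : NumberField K, Module.finrank ℚ K = P.natDegree ∧ Gen x ∧ aeval x P = 0 := by
  obtain rfl : A = DivisionRing.toRatAlgebra := Subsingleton.elim _ _
  have i1 : NumberField K := { to_charZero := inferInstance, to_finiteDimensional := hfd }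
  refine ⟨i1, hfin, ?_, hx⟩
  unfold Gen
  rw [← minpoly.eq_of_irreducible_of_monic hP hx hm, hfin]

/-- A number field with a generator `x` which is a root of `X ^ n + as`. -/
theorem exists_field {l : ℕ} (hl : l.Prime) (as : List ℤ) (h1 : 1 < as.length)
    (h : ∀ k, 1 ≤ k → k ≤ as.length / 2 →
      nofac l (1 :: as.map fun a : ℤ => (a % (l : ℤ)).toNat) k = true) :
    ∃ (K : Type) (_ : Field K) (_ : NumberField K), Module.finrank ℚ K = as.length ∧
      ∃ x : K, Gen x ∧ as.foldl (fun (v : K) (a : ℤ) => x * v + (a : K)) 1 = 0 := by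
  obtain ⟨k1, k2⟩ := hz_monic as 1 monic_one
  rw [natDegree_one, zero_add] at k2
  have hirrl : Irreducible ((hz 1 as).map (Int.castRingHom (ZMod l))) := by
    have : Fact l.Prime := ⟨hl⟩
    have hm := k1.map (Int.castRingHom (ZMod l))
    have hdeg : ((hz 1 as).map (Int.castRingHom (ZMod l))).natDegree = as.length := by
      rw [k1.natDegree_map, k2]
    refine irreducible_of_nofac hl (f := 1 :: as.map fun a : ℤ => (a % (l : ℤ)).toNat) ?_ hm
      (by rw [hdeg]; exact h1) (by rw [hdeg]; exact h)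
    rw [hz_map hl.ne_zero, hi, Polynomial.map_one]
    simp
  have hfl : Fact l.Prime := ⟨hl⟩
  have hirr : Irreducible (hz 1 as) := k1.irreducible_of_irreducible_map _ _ hirrl
  have hirrQ : Irreducible ((hz 1 as).map (Int.castRingHom ℚ)) :=
    (Polynomial.IsPrimitive.Int.irreducible_iff_irreducible_map_cast k1.isPrimitive).1 hirr
  have hfact : Fact (Irreducible ((hz 1 as).map (Int.castRingHom ℚ))) := ⟨hirrQ⟩
  have hmQ := k1.map (Int.castRingHom ℚ)
  have hdQ : ((hz 1 as).map (Int.castRingHom ℚ)).natDegree = as.length := by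
    rw [k1.natDegree_map, k2]
  obtain ⟨i1, i2, i3, i4⟩ := field_of_root (AdjoinRoot.instAlgebra _) hirrQ hmQ
    (AdjoinRoot.root ((hz 1 as).map (Int.castRingHom ℚ)))
    (by rw [AdjoinRoot.aeval_eq, AdjoinRoot.mk_self])
    (by rw [(AdjoinRoot.powerBasis hirrQ.ne_zero).finrank, AdjoinRoot.powerBasis_dim])
    (AdjoinRoot.powerBasis hirrQ.ne_zero).finite
  refine ⟨AdjoinRoot ((hz 1 as).map (Int.castRingHom ℚ)), inferInstance, i1, by rw [i2, hdQ],
    AdjoinRoot.root _, i3, ?_⟩
  have e := hz_aeval (AdjoinRoot.root ((hz 1 as).map (Int.castRingHom ℚ))) as 1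
  rw [map_one] at e
  rw [← e, ← i4]
  exact (aeval_map_algebraMap ℚ _ _).symm

end Pool.Agent.Lib_helper73.DEG
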