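import Mathlib
import Pool.Agent.Lib_helper73.DEG.Fld
import Pool.Agent.Lib_helper73.DEG.Cycle

/-!
Degree 11: a closed cycle of four conics.
-/

namespace Pool.Agent.Lib_helper73.DEG

open Pool.Agent.Lib_helper11.CUB
open Pool.Agent.Lib_helper48.EVEN (Gen)

theorem nofac_11 : ∀ k, 1 ≤ k → k ≤ 11 / 2 →
    nofac 3 (1 :: ([49, 660, -1710, -89750, -402050, 1381280, 8898045, -1829705, -15102720, 543764, 6383386] : List ℤ).map fun a : ℤ => (a % ((3 : ℕ) : ℤ)).toNat) k = true := by
  intro k h1 h2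
  have h3 : k ≤ 5 := by omega
  interval_cases k <;> decide +kernel

/-- Degree 11, for all completely multiplicative `h` with `h 2 = -1`. -/
theorem count_11 : ∃ g : Fin 8 → Polynomial ℤ, (∀ i, (g i).Monic ∧ Irreducible (g i) ∧
    (g i).natDegree = 11) ∧ ∃ C : ℕ, ∀ h : ℕ → ℤ, CM h → h 2 = -1 →
      ∀ x : ℕ, 1 ≤ x → ∃ i, ∀ s : ℤ, (s = 1 ∨ s = -1) →
        x < 4 * ((Finset.Icc x (C * x ^ 2)).filter (fun n : ℕ =>
          h ((g i).eval (n : ℤ)).natAbs = s)).card := by
  obtain ⟨K, _, _, hfin, x, hx, e⟩ := exists_field (l := 3) (by norm_num)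
    [49, 660, -1710, -89750, -402050, 1381280, 8898045, -1829705, -15102720, 543764, 6383386] (by simp) nofac_11
  simp only [List.foldl_cons, List.foldl_nil, List.length_cons, List.length_nil] at e hfin
  push_cast at e
  norm_num at hfin
  obtain ⟨w1, hw1⟩ : ∃ w : K, w = (2536681838387 + (-1777412954840) * x + (-3228100163980) * x ^ 2 + 1985022603460 * x ^ 3 + 580651664450 * x ^ 4 + (-83855854090) * x ^ 5 + (-28172190590) * x ^ 6 + (-933742840) * x ^ 7 + 191971190 * x ^ 8 + 15935810 * x ^ 9 + 339918 * x ^ 10) / 89788421875 := ⟨_, rfl⟩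
  obtain ⟨w2, hw2⟩ : ∃ w : K, w = ((-1835797967178453) + 2054562525475300 * x + 2542685857795280 * x ^ 2 + (-2788892809341300) * x ^ 3 + (-523638728102990) * x ^ 4 + 125688352738350 * x ^ 5 + 29298415320570 * x ^ 6 + 570024911000 * x ^ 7 + (-211343376650) * x ^ 8 + (-15615458350) * x ^ 9 + (-316960882) * x ^ 10) / 345595635796875 := ⟨_, rfl⟩
  obtain ⟨w3, hw3⟩ : ∃ w : K, w = (244341227513233 + (-58733971369520) * x + 376701954094640 * x ^ 2 + 60527202275530 * x ^ 3 + (-55334339346590) * x ^ 4 + (-4525322985220) * x ^ 5 + 1711626301600 * x ^ 6 + 156991788180 * x ^ 7 + (-8738915030) * x ^ 8 + (-1207546470) * x ^ 9 + (-29788478) * x ^ 10) / 345595635796875 := ⟨_, rfl⟩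
  have hd : Odd (Module.finrank ℚ K) := by rw [hfin]; decide
  have h1 : 1 < Module.finrank ℚ K := by rw [hfin]; norm_num
  have e0 : w1 ^ 2 = ((8 : ℚ) : K) * (x + (((-5 / 2) : ℚ) : K)) ^ 2 + (((-17) : ℚ) : K) := by
    rw [hw1]
    push_cast
    linear_combination ((966369579719909104 + (-1444446706457591556) * x + 328606527539456704 * x ^ 2 + 206863311320502644 * x ^ 3 + (-12730839737306036) * x ^ 4 + (-8608493977084396) * x ^ 5 + (-415994382752456) * x ^ 6 + 54768370796584 * x ^ 7 + 5172069237684 * x ^ 8 + 115544246724 * x ^ 9) / 8061960702802978515625) * e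
  have e1 : w2 ^ 2 = (((4 / 45) : ℚ) : K) * (w1 + (((-5) : ℚ) : K)) ^ 2 + (((-19 / 45) : ℚ) : K) := by
    rw [hw1, hw2]
    push_cast
    linear_combination (((-1816596435823732447126304) + 1901235234086559710074156 * x + 2178556207782708464288096 * x ^ 2 + (-389561985638000330672044) * x ^ 3 + (-112561432158871638310164) * x ^ 4 + 8872751594417566186996 * x ^ 5 + 1791337231468998419256 * x ^ 6 + (-22234886741909648984) * x ^ 7 + (-9173579779020815884) * x ^ 8 + (-258463450591560124) * x ^ 9) / 597181717409231344581298828125) * e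
  have e2 : w3 ^ 2 = (((1 / 4) : ℚ) : K) * (w2 + (((-4 / 3) : ℚ) : K)) ^ 2 + (((35 / 36) : ℚ) : K) := by
    rw [hw2, hw3]
    push_cast
    linear_combination (((-215402907743921889518612) + 383444173271441397926893 * x + (-220836751794090028543712) * x ^ 2 + (-48906762317192334499657) * x ^ 3 + 10141673972614135615833 * x ^ 4 + 2381673358359361995263 * x ^ 5 + 41942651398327515418 * x ^ 6 + (-16920444668416922002) * x ^ 7 + (-1215596641672085177) * x ^ 8 + (-24228696757997997) * x ^ 9) / 119436343481846268916259765625) * e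
  have e3 : x ^ 2 = (((45 / 16) : ℚ) : K) * (w3 + (((-4 / 3) : ℚ) : K)) ^ 2 + (((11 / 16) : ℚ) : K) := by
    rw [hw3]
    push_cast
    linear_combination (((-2978334371801144885981) + (-742092014638824516426) * x + 931455835693814010794 * x ^ 2 + 70444336360343920349 * x ^ 3 + (-80595828550520650421) * x ^ 4 + 2189627592183740209 * x ^ 5 + 1360810632586018134 * x ^ 6 + 366615569193114 * x ^ 7 + (-7115406313719401) * x ^ 8 + (-221838355389121) * x ^ 9) / 10616563865053001681445312500) * e
  rw [← hfin]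
  exact count_cycle4 hd h1 hx (by norm_num) (by norm_num) (by norm_num) (by norm_num) e0 e1 e2 e3
    (p := 2) Nat.prime_two (r := (1 / 2)) (by norm_num) (by norm_num)

end Pool.Agent.Lib_helper73.DEG
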