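import Mathlib
import Pool.Agent.Lib_helper73.DEG.Fld
import Pool.Agent.Lib_helper73.DEG.Cycle

/-!
Degree 13: a closed cycle of four conics.
-/

namespace Pool.Agent.Lib_helper73.DEG

open Pool.Agent.Lib_helper11.CUB
open Pool.Agent.Lib_helper48.EVEN (Gen)

theorem nofac_13 : ∀ k, 1 ≤ k → k ≤ 13 / 2 →
    nofac 3 (1 :: ([43, 378, -4874, -74805, -44475, 1660070, -469070, 167700, 11456280, -13399536, 23302912, -10503808, 6109184] : List ℤ).map fun a : ℤ => (a % ((3 : ℕ) : ℤ)).toNat) k = true := by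
  intro k h1 h2
  have h3 : k ≤ 6 := by omega
  interval_cases k <;> decide +kernel

/-- Degree 13, for all completely multiplicative `h` with `h 2 = -1`. -/
theorem count_13 : ∃ g : Fin 8 → Polynomial ℤ, (∀ i, (g i).Monic ∧ Irreducible (g i) ∧
    (g i).natDegree = 13) ∧ ∃ C : ℕ, ∀ h : ℕ → ℤ, CM h → h 2 = -1 →
      ∀ x : ℕ, 1 ≤ x → ∃ i, ∀ s : ℤ, (s = 1 ∨ s = -1) →
        x < 4 * ((Finset.Icc x (C * x ^ 2)).filter (fun n : ℕ =>
          h ((g i).eval (n : ℤ)).natAbs = s)).card := by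
  obtain ⟨K, _, _, hfin, x, hx, e⟩ := exists_field (l := 3) (by norm_num)
    [43, 378, -4874, -74805, -44475, 1660070, -469070, 167700, 11456280, -13399536, 23302912, -10503808, 6109184] (by simp) nofac_13
  simp only [List.foldl_cons, List.foldl_nil, List.length_cons, List.length_nil] at e hfin
  push_cast at e
  norm_num at hfin
  obtain ⟨w1, hw1⟩ : ∃ w : K, w = ((-2967714726816) + 3125024644768 * x + (-4277271279336) * x ^ 2 + 1305585768760 * x ^ 3 + (-164973956830) * x ^ 4 + (-458017606170) * x ^ 5 + 205363188175 * x ^ 6 + 13677302520 * x ^ 7 + (-6874114945) * x ^ 8 + (-597522910) * x ^ 9 + 30087761 * x ^ 10 + 4213032 * x ^ 11 + 101991 * x ^ 12) / 363182500000 := ⟨_, rfl⟩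
  obtain ⟨w2, hw2⟩ : ∃ w : K, w = (1525191708992 + (-748953948672) * x + 848332550896 * x ^ 2 + 77890227560 * x ^ 3 + (-63307670460) * x ^ 4 + 77185206030 * x ^ 5 + 622106590 * x ^ 6 + (-3670438105) * x ^ 7 + (-314630975) * x ^ 8 + 14922490 * x ^ 9 + 2484338 * x ^ 10 + 80697 * x ^ 11 + 619 * x ^ 12) / 435819000000 := ⟨_, rfl⟩
  obtain ⟨w3, hw3⟩ : ∃ w : K, w = (4410936908672 + (-3958009546176) * x + 4022333804192 * x ^ 2 + (-3000622675320) * x ^ 3 + 646486265960 * x ^ 4 + 530109182190 * x ^ 5 + (-413836909300) * x ^ 6 + (-9002414515) * x ^ 7 + 15321384765 * x ^ 8 + 1120433370 * x ^ 9 + (-72597212) * x ^ 10 + (-8829549) * x ^ 11 + (-207077) * x ^ 12) / 1452730000000 := ⟨_, rfl⟩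
  have hd : Odd (Module.finrank ℚ K) := by rw [hfin]; decide
  have h1 : 1 < Module.finrank ℚ K := by rw [hfin]; norm_num
  have e0 : w1 ^ 2 = ((4 : ℚ) : K) * (x + (((-5 / 2) : ℚ) : K)) ^ 2 + (((-8) : ℚ) : K) := by
    rw [hw1]
    push_cast
    linear_combination ((1074612373527187184 + (-756698555454052156) * x + 267760953827155230 * x ^ 2 + 59374236491421230 * x ^ 3 + (-103484827992416485) * x ^ 4 + 20424987245110415 * x ^ 5 + 3163617601931485 * x ^ 6 + (-599569882086815) * x ^ 7 + (-69542751095355) * x ^ 8 + 2235127843245 * x ^ 9 + 412089637941 * x ^ 10 + 10402164081 * x ^ 11) / 131901528306250000000000) * e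
  have e1 : w2 ^ 2 = (((4 / 45) : ℚ) : K) * (w1 + (((-5) : ℚ) : K)) ^ 2 + (((-19 / 45) : ℚ) : K) := by
    rw [hw1, hw2]
    push_cast
    linear_combination (((-10693522461207282944) + 13171840985116044496 * x + (-4889638388224820680) * x ^ 2 + (-515124962930475180) * x ^ 3 + 1675837856855048010 * x ^ 4 + (-348799407267980890) * x ^ 5 + (-53013010816670135) * x ^ 6 + 9653068909235415 * x ^ 7 + 1129931552412430 * x ^ 8 + (-35030117743670) * x ^ 9 + (-6583005836681) * x ^ 10 + (-166386730171) * x ^ 11) / 23742275095125000000000000) * e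
  have e2 : w3 ^ 2 = (((45 / 16) : ℚ) : K) * (w2 + (((-4 / 3) : ℚ) : K)) ^ 2 + (((11 / 16) : ℚ) : K) := by
    rw [hw2, hw3]
    push_cast
    linear_combination (((-6448282153751268096) + (-5013428890380339216) * x + 5215257829904064680 * x ^ 2 + (-1242048816750898020) * x ^ 3 + (-944808012073624610) * x ^ 4 + 410406212119145890 * x ^ 5 + 25534697298373835 * x ^ 6 + (-12528494527031515) * x ^ 7 + (-1034935113135830) * x ^ 8 + 54720236132270 * x ^ 9 + 7241231740021 * x ^ 10 + 171475640591 * x ^ 11) / 8441697811600000000000000) * e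
  have e3 : x ^ 2 = (((1 / 2) : ℚ) : K) * (w3 + (((-5 / 2) : ℚ) : K)) ^ 2 + (((-1 / 8) : ℚ) : K) := by
    rw [hw3]
    push_cast
    linear_combination (((-12998340369110976) + 987191198132282304 * x + (-1152448675728431920) * x ^ 2 + 201796498954658380 * x ^ 3 + 231181850774310090 * x ^ 4 + (-97101650193232910) * x ^ 5 + (-5784892028151865) * x ^ 6 + 3117135932796285 * x ^ 7 + 254421894562270 * x ^ 8 + (-13863040970130) * x ^ 9 + (-1812915027599) * x ^ 10 + (-42880883929) * x ^ 11) / 4220848905800000000000000) * e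
  rw [← hfin]
  exact count_cycle4 hd h1 hx (by norm_num) (by norm_num) (by norm_num) (by norm_num) e0 e1 e2 e3
    (p := 2) Nat.prime_two (r := (1 / 2)) (by norm_num) (by norm_num)

end Pool.Agent.Lib_helper73.DEG
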