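import Mathlib
import Pool.Agent.Lib_helper73.DEG.Fld
import Pool.Agent.Lib_helper73.DEG.Cycle

/-!
Degree 9: a closed cycle of four conics.
-/

namespace Pool.Agent.Lib_helper73.DEG

open Pool.Agent.Lib_helper11.CUB
open Pool.Agent.Lib_helper48.EVEN (Gen)

theorem nofac_9 : ∀ k, 1 ≤ k → k ≤ 9 / 2 →
    nofac 5 (1 :: ([39, 220, -6748, -78010, 31818, 2573532, 4493284, -7023871, -1317369] : List ℤ).map fun a : ℤ => (a % ((5 : ℕ) : ℤ)).toNat) k = true := by
  intro k h1 h2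
  have h3 : k ≤ 4 := by omega
  interval_cases k <;> decide +kernel

/-- Degree 9, for all completely multiplicative `h` with `h 2 = -1`. -/
theorem count_9 : ∃ g : Fin 8 → Polynomial ℤ, (∀ i, (g i).Monic ∧ Irreducible (g i) ∧
    (g i).natDegree = 9) ∧ ∃ C : ℕ, ∀ h : ℕ → ℤ, CM h → h 2 = -1 →
      ∀ x : ℕ, 1 ≤ x → ∃ i, ∀ s : ℤ, (s = 1 ∨ s = -1) →
        x < 4 * ((Finset.Icc x (C * x ^ 2)).filter (fun n : ℕ =>
          h ((g i).eval (n : ℤ)).natAbs = s)).card := by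
  obtain ⟨K, _, _, hfin, x, hx, e⟩ := exists_field (l := 5) (by norm_num)
    [39, 220, -6748, -78010, 31818, 2573532, 4493284, -7023871, -1317369] (by simp) nofac_9
  simp only [List.foldl_cons, List.foldl_nil, List.length_cons, List.length_nil] at e hfin
  push_cast at e
  norm_num at hfin
  obtain ⟨w1, hw1⟩ : ∃ w : K, w = ((-12890939565) + 1921254890 * x + 9602661714 * x ^ 2 + 860358834 * x ^ 3 + (-291243000) * x ^ 4 + (-32657890) * x ^ 5 + 714862 * x ^ 6 + 166214 * x ^ 7 + 4325 * x ^ 8) / 3715467264 := ⟨_, rfl⟩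
  obtain ⟨w2, hw2⟩ : ∃ w : K, w = (30369238701 + (-41925831568) * x + (-5514966636) * x ^ 2 + 2478536016 * x ^ 3 + 138826614 * x ^ 4 + (-36495856) * x ^ 5 + (-1629020) * x ^ 6 + 137264 * x ^ 7 + 6053 * x ^ 8) / 18577336320 := ⟨_, rfl⟩
  obtain ⟨w3, hw3⟩ : ∃ w : K, w = (14482520832 + 16286821075 * x + (-2972714355) * x ^ 2 + (-1669447425) * x ^ 3 + 76208193 * x ^ 4 + 34576873 * x ^ 5 + 457079 * x ^ 6 + (-151739) * x ^ 7 + (-5189) * x ^ 8) / 7430934528 := ⟨_, rfl⟩
  have hd : Odd (Module.finrank ℚ K) := by rw [hfin]; decide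
  have h1 : 1 < Module.finrank ℚ K := by rw [hfin]; norm_num
  have e0 : w1 ^ 2 = ((3 : ℚ) : K) * (x + (((-2) : ℚ) : K)) ^ 2 + (((-2) : ℚ) : K) := by
    rw [hw1]
    push_cast
    linear_combination (((-21352675651185) + 25699433304107 * x + 6713680139759 * x ^ 2 + (-1024480551709) * x ^ 3 + (-155336663083) * x ^ 4 + 2074375321 * x ^ 5 + 708231725 * x ^ 6 + 18705625 * x ^ 7) / 13804696989855645696) * e
  have e1 : w2 ^ 2 = (((2 / 25) : ℚ) : K) * (w1 + (((-3) : ℚ) : K)) ^ 2 + (((17 / 25) : ℚ) : K) := by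
    rw [hw1, hw2]
    push_cast
    linear_combination ((355235889545841 + (-101222457782255) * x + (-23958998050955) * x ^ 2 + 4377398970853 * x ^ 3 + 320422029091 * x ^ 4 + (-22168171933) * x ^ 5 + (-1183659017) * x ^ 6 + (-772441) * x ^ 7) / 345117424746391142400) * e
  have e2 : w3 ^ 2 = (((75 / 32) : ℚ) : K) * (w2 + (((-6 / 5) : ℚ) : K)) ^ 2 + (((29 / 32) : ℚ) : K) := by
    rw [hw2, hw3]
    push_cast
    linear_combination (((-821276841865389) + (-28171731575093) * x + 61089176541823 * x ^ 2 + (-244845119417) * x ^ 3 + (-951148470743) * x ^ 4 + (-10770736591) * x ^ 5 + 3498740485 * x ^ 6 + 105489341 * x ^ 7) / 441750303675380662272) * e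
  have e3 : x ^ 2 = (((8 / 9) : ℚ) : K) * (w3 + (((-9 / 4) : ℚ) : K)) ^ 2 + (((-7 / 18) : ℚ) : K) := by
    rw [hw3]
    push_cast
    linear_combination (((-14539346608128) + 22205313137152 * x + (-3686782903439) * x ^ 2 + (-842558560361) * x ^ 3 + 115237795246 * x ^ 4 + 8103625058 * x ^ 5 + (-524644223) * x ^ 6 + (-26925721) * x ^ 7) / 62121136454350405632) * e
  rw [← hfin]
  exact count_cycle4 hd h1 hx (by norm_num) (by norm_num) (by norm_num) (by norm_num) e0 e1 e2 e3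
    (p := 2) Nat.prime_two (r := (1 / 2)) (by norm_num) (by norm_num)

end Pool.Agent.Lib_helper73.DEG
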