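import Mathlib
import Pool.Agent.Lib_helper73.DEG.Cycle

/-!
Number fields of odd degree with a closed cycle of three or five conics.
-/

namespace Pool.Agent.Lib_helper73.DEG

open Pool.Agent.Lib_helper11.CUB Pool.Agent.Lib_helper3.QUI Polynomial
open Pool.Agent.Lib_helper48.EVEN (Gen gen_affine gen_sq affine_not_mem list_family)
open Pool.Agent.Lib_helper48.CNT (exc mem_exc Maj Ev Ev.and Ev.imp Ev.sub Ev.signs windows_count
  gen_poly gen_cubic gen_neg)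
open Pool.Agent.Lib_helper3.CNT2

variable {K : Type*} [Field K] [NumberField K]

/-- A closed cycle of three conics. -/
theorem count_cycle3 (hd : Odd (Module.finrank ℚ K)) (h1 : 1 < Module.finrank ℚ K)
    {w0 w1 w2 : K} (g0 : Gen w0) {q0 q1 q2 a0 a1 a2 c0 c1 c2 : ℚ}
    (hq0 : 0 < q0) (hq1 : 0 < q1) (hq2 : 0 < q2)
    (e0 : w1 ^ 2 = (q0 : K) * (w0 + (a0 : K)) ^ 2 + (c0 : K))
    (e1 : w2 ^ 2 = (q1 : K) * (w1 + (a1 : K)) ^ 2 + (c1 : K))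
    (e2 : w0 ^ 2 = (q2 : K) * (w2 + (a2 : K)) ^ 2 + (c2 : K))
    {p : ℕ} (hp : p.Prime) {r : ℚ} (hr : r ≠ 0) (hprod : q0 * q1 * q2 = p * (r * r)) :
    ∃ g : Fin 6 → ℤ[X], (∀ i, (g i).Monic ∧ Irreducible (g i) ∧
      (g i).natDegree = Module.finrank ℚ K) ∧ ∃ C : ℕ, ∀ h : ℕ → ℤ, CM h → h p = -1 →
        ∀ x : ℕ, 1 ≤ x → ∃ i, ∀ s : ℤ, (s = 1 ∨ s = -1) →
          x < 4 * ((Finset.Icc x (C * x ^ 2)).filter (fun n : ℕ =>
            h ((g i).eval (n : ℤ)).natAbs = s)).card := by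
  have g1 : Gen w1 := gen_next hd g0 hq0 e0
  have g2 : Gen w2 := gen_next hd g1 hq1 e1
  have s0 : Path (w1 ^ 2) (w0 ^ 2) (fun h => H h q0) 2 :=
    Path.step hd h1 g0 (gen_sq hd g1) hq0 (α' := 0) (c' := 0) e0 (by push_cast; ring)
  have s1 : Path (w2 ^ 2) (w1 ^ 2) (fun h => H h q1) 2 :=
    Path.step hd h1 g1 (gen_sq hd g2) hq1 (α' := 0) (c' := 0) e1 (by push_cast; ring)
  have s2 : Path (w0 ^ 2) (w2 ^ 2) (fun h => H h q2) 2 :=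
    Path.step hd h1 g2 (gen_sq hd g0) hq2 (α' := 0) (c' := 0) e2 (by push_cast; ring)
  have full : Path (w0 ^ 2) (w0 ^ 2) (fun h => H h q2 * H h q1 * H h q0) 6 :=
    (s2.trans s1).trans s0
  obtain ⟨L, hL, hG, hmem, hE⟩ := full.close
  obtain ⟨m, hm, H'⟩ := windows_count hd h1 hG hE
  obtain ⟨hint, C, H'⟩ := H' m hm dvd_rfl
  obtain ⟨y, hy1, hy2⟩ := list_family hL (List.ne_nil_of_mem hmem)
  have hlabel : ∀ h : ℕ → ℤ, CM h → h p = -1 → H h q2 * H h q1 * H h q0 = -1 := by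
    intro h hh hhp
    have k1 := H_mul hh hq0.ne' hq1.ne'
    have k2 := H_mul hh (mul_ne_zero hq0.ne' hq1.ne') hq2.ne'
    rw [k1, hprod, H_mul hh (by exact_mod_cast hp.ne_zero) (mul_ne_zero hr hr), H_mul hh hr hr,
      H_sq hh hr, H_nat hh, hhp] at k2
    linarith
  refine ⟨fun i => minpoly ℤ ((m : K) * y i), fun i => ?_, C, fun h hh hhp x hx => ?_⟩
  · obtain ⟨a, b, c⟩ := gen_poly (hG _ (hy1 i)) hm (hint _ (hy1 i))
    exact ⟨a, b, c⟩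
  · obtain ⟨z, hz, H''⟩ := H' h hh (by
      rw [hlabel h hh hhp]
      norm_num) x hx
    obtain ⟨i, rfl⟩ := hy2 z hz
    exact ⟨i, H''⟩

/-- A closed cycle of five conics. -/
theorem count_cycle5 (hd : Odd (Module.finrank ℚ K)) (h1 : 1 < Module.finrank ℚ K)
    {w0 w1 w2 w3 w4 : K} (g0 : Gen w0) {q0 q1 q2 q3 q4 a0 a1 a2 a3 a4 c0 c1 c2 c3 c4 : ℚ}
    (hq0 : 0 < q0) (hq1 : 0 < q1) (hq2 : 0 < q2) (hq3 : 0 < q3) (hq4 : 0 < q4)
    (e0 : w1 ^ 2 = (q0 : K) * (w0 + (a0 : K)) ^ 2 + (c0 : K))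
    (e1 : w2 ^ 2 = (q1 : K) * (w1 + (a1 : K)) ^ 2 + (c1 : K))
    (e2 : w3 ^ 2 = (q2 : K) * (w2 + (a2 : K)) ^ 2 + (c2 : K))
    (e3 : w4 ^ 2 = (q3 : K) * (w3 + (a3 : K)) ^ 2 + (c3 : K))
    (e4 : w0 ^ 2 = (q4 : K) * (w4 + (a4 : K)) ^ 2 + (c4 : K))
    {p : ℕ} (hp : p.Prime) {r : ℚ} (hr : r ≠ 0) (hprod : q0 * q1 * q2 * q3 * q4 = p * (r * r)) :
    ∃ g : Fin 10 → ℤ[X], (∀ i, (g i).Monic ∧ Irreducible (g i) ∧
      (g i).natDegree = Module.finrank ℚ K) ∧ ∃ C : ℕ, ∀ h : ℕ → ℤ, CM h → h p = -1 →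
        ∀ x : ℕ, 1 ≤ x → ∃ i, ∀ s : ℤ, (s = 1 ∨ s = -1) →
          x < 4 * ((Finset.Icc x (C * x ^ 2)).filter (fun n : ℕ =>
            h ((g i).eval (n : ℤ)).natAbs = s)).card := by
  have g1 : Gen w1 := gen_next hd g0 hq0 e0
  have g2 : Gen w2 := gen_next hd g1 hq1 e1
  have g3 : Gen w3 := gen_next hd g2 hq2 e2
  have g4 : Gen w4 := gen_next hd g3 hq3 e3
  have s0 : Path (w1 ^ 2) (w0 ^ 2) (fun h => H h q0) 2 :=
    Path.step hd h1 g0 (gen_sq hd g1) hq0 (α' := 0) (c' := 0) e0 (by push_cast; ring)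
  have s1 : Path (w2 ^ 2) (w1 ^ 2) (fun h => H h q1) 2 :=
    Path.step hd h1 g1 (gen_sq hd g2) hq1 (α' := 0) (c' := 0) e1 (by push_cast; ring)
  have s2 : Path (w3 ^ 2) (w2 ^ 2) (fun h => H h q2) 2 :=
    Path.step hd h1 g2 (gen_sq hd g3) hq2 (α' := 0) (c' := 0) e2 (by push_cast; ring)
  have s3 : Path (w4 ^ 2) (w3 ^ 2) (fun h => H h q3) 2 :=
    Path.step hd h1 g3 (gen_sq hd g4) hq3 (α' := 0) (c' := 0) e3 (by push_cast; ring)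
  have s4 : Path (w0 ^ 2) (w4 ^ 2) (fun h => H h q4) 2 :=
    Path.step hd h1 g4 (gen_sq hd g0) hq4 (α' := 0) (c' := 0) e4 (by push_cast; ring)
  have full : Path (w0 ^ 2) (w0 ^ 2) (fun h => H h q4 * H h q3 * H h q2 * H h q1 * H h q0) 10 :=
    (((s4.trans s3).trans s2).trans s1).trans s0
  obtain ⟨L, hL, hG, hmem, hE⟩ := full.close
  obtain ⟨m, hm, H'⟩ := windows_count hd h1 hG hE
  obtain ⟨hint, C, H'⟩ := H' m hm dvd_rfl
  obtain ⟨y, hy1, hy2⟩ := list_family hL (List.ne_nil_of_mem hmem)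
  have hlabel : ∀ h : ℕ → ℤ, CM h → h p = -1 → H h q4 * H h q3 * H h q2 * H h q1 * H h q0 = -1 := by
    intro h hh hhp
    have k1 := H_mul hh hq0.ne' hq1.ne'
    have k2 := H_mul hh (mul_ne_zero hq0.ne' hq1.ne') hq2.ne'
    have k3 := H_mul hh (mul_ne_zero (mul_ne_zero hq0.ne' hq1.ne') hq2.ne') hq3.ne'
    have k4 := H_mul hh (mul_ne_zero (mul_ne_zero (mul_ne_zero hq0.ne' hq1.ne') hq2.ne') hq3.ne') hq4.ne'
    rw [k3, k2, k1, hprod, H_mul hh (by exact_mod_cast hp.ne_zero) (mul_ne_zero hr hr), H_mul hh hr hr,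
      H_sq hh hr, H_nat hh, hhp] at k4
    linarith
  refine ⟨fun i => minpoly ℤ ((m : K) * y i), fun i => ?_, C, fun h hh hhp x hx => ?_⟩
  · obtain ⟨a, b, c⟩ := gen_poly (hG _ (hy1 i)) hm (hint _ (hy1 i))
    exact ⟨a, b, c⟩
  · obtain ⟨z, hz, H''⟩ := H' h hh (by
      rw [hlabel h hh hhp]
      norm_num) x hx
    obtain ⟨i, rfl⟩ := hy2 z hz
    exact ⟨i, H''⟩

end Pool.Agent.Lib_helper73.DEG
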