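import Mathlib
import Pool.Agent.Lib_helper73.DEG.Irr

/-!
An irreducibility test for monic polynomials over `ZMod l`: for every `k` up to half the degree,
`X ^ (l ^ k) - X` is invertible modulo the polynomial, by lists of natural numbers.
-/

namespace Pool.Agent.Lib_helper73.DEG

open Polynomial

/-- One step: for residues modulo `X ^ k - ∑ c i X ^ i`, `w ↦ X w + a v`, where `t` is the last
entry of `w`. -/
def st2 (l t a : ℕ) : ℕ → List ℕ → List ℕ → List ℕ → List ℕ
  | p, c :: cs, w :: ws, v :: vs => ((p + c * t + a * v) % l) :: st2 l t a w cs ws vs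
  | _, _, _, _ => []

/-- product of residues -/
def mulm (l : ℕ) (c v : List ℕ) : List ℕ → List ℕ
  | [] => List.replicate c.length 0
  | a :: as => st2 l (lst 0 (mulm l c v as)) a 0 c (mulm l c v as) v

/-- `h ^ l = w`, by a chain of squarings (`true`) and multiplications by `h` (`false`) -/
def chain (l : ℕ) (c h : List ℕ) : ℕ → List ℕ → List (Bool × List ℕ) → List ℕ → Bool
  | e, cur, [], w => e == l && cur == w
  | e, cur, (true, u) :: r, w => mulm l c cur cur == u && chain l c h (2 * e) u r w
  | e, cur, (false, u) :: r, w => mulm l c cur h == u && chain l c h (e + 1) u r w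

/-- subtract `X` -/
def subX (l : ℕ) : List ℕ → List ℕ
  | a :: b :: vs => a :: (b + (l - 1)) :: vs
  | v => v

/-- `X ^ (l ^ k) - X` is invertible for `k = 1, 2, …` -/
def test (l : ℕ) (c : List ℕ) : List ℕ → List (List (Bool × List ℕ) × List ℕ × List ℕ) → Bool
  | _, [] => true
  | h, (st, w, a) :: r => chain l c h 1 h st w && mulm l c (subX l w) a == (1 :: List.replicate (c.length - 1) 0) &&
      w.length == c.length && test l c w r

variable {l : ℕ}

theorem toP_st2 (t a : ℕ) : ∀ (p : ℕ) (c w v : List ℕ), w.length = c.length → v.length = c.length →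
    (st2 l t a p c w v).length = c.length ∧
    C (p : ZMod l) + X * toP l w + C (a : ZMod l) * toP l v = toP l (st2 l t a p c w v) -
      C (t : ZMod l) * toP l c + X ^ c.length * C ((lst p w : ℕ) : ZMod l)
  | p, [], [], [], _, _ => by simp [st2, toP, lst]
  | p, c :: cs, w :: ws, v :: vs, h1, h2 => by
    obtain ⟨k1, ih⟩ := toP_st2 t a w cs ws vs (by simpa using h1) (by simpa using h2)
    refine ⟨by simp [st2, k1], ?_⟩
    simp only [st2, toP, lst, List.length_cons, pow_succ]
    simp only [ZMod.natCast_mod, Nat.cast_add, Nat.cast_mul, C_add, C_mul]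
    linear_combination X * ih

theorem toP_replicate (n : ℕ) : toP l (List.replicate n 0) = 0 := by
  ext i
  rw [toP_coeff]
  simp

theorem mulm_spec {c v : List ℕ} (hc : c ≠ []) (hv : v.length = c.length) : ∀ u : List ℕ,
    (mulm l c v u).length = c.length ∧
      X ^ c.length - toP l c ∣ toP l u * toP l v - toP l (mulm l c v u)
  | [] => by simp [mulm, toP, toP_replicate]
  | a :: as => by
    obtain ⟨k1, k2⟩ := mulm_spec hc hv as
    obtain ⟨k3, k4⟩ := toP_st2 (l := l) (lst 0 (mulm l c v as)) a 0 c (mulm l c v as) v k1 hv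
    refine ⟨k3, ?_⟩
    simp only [mulm, toP]
    have e : (C (a : ZMod l) + X * toP l as) * toP l v -
        toP l (st2 l (lst 0 (mulm l c v as)) a 0 c (mulm l c v as) v) =
        X * (toP l as * toP l v - toP l (mulm l c v as)) +
          (X ^ c.length - toP l c) * C ((lst 0 (mulm l c v as) : ℕ) : ZMod l) := by
      simp only [Nat.cast_zero, C_0] at k4
      linear_combination k4
    rw [e]
    exact dvd_add (Dvd.dvd.mul_left k2 _) (Dvd.intro _ rfl)

theorem chain_spec {c h w : List ℕ} (hc : c ≠ []) (hh : h.length = c.length) :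
    ∀ (st : List (Bool × List ℕ)) (e : ℕ) (cur : List ℕ), cur.length = c.length →
      X ^ c.length - toP l c ∣ toP l h ^ e - toP l cur → chain l c h e cur st w = true →
      w.length = c.length ∧ X ^ c.length - toP l c ∣ toP l h ^ l - toP l w
  | [], e, cur, k1, k2, k3 => by
    simp only [chain, Bool.and_eq_true, beq_iff_eq] at k3
    obtain ⟨rfl, rfl⟩ := k3
    exact ⟨k1, k2⟩
  | (true, u) :: r, e, cur, k1, k2, k3 => by
    simp only [chain, Bool.and_eq_true, beq_iff_eq] at k3
    obtain ⟨rfl, k4⟩ := k3
    obtain ⟨k5, k6⟩ := mulm_spec (l := l) hc k1 cur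
    refine chain_spec hc hh r (2 * e) _ k5 ?_ k4
    have e1 : toP l h ^ (2 * e) - toP l (mulm l c cur cur) =
        (toP l h ^ e - toP l cur) * (toP l h ^ e + toP l cur) +
          (toP l cur * toP l cur - toP l (mulm l c cur cur)) := by
      ring
    rw [e1]
    exact dvd_add (Dvd.dvd.mul_right k2 _) k6
  | (false, u) :: r, e, cur, k1, k2, k3 => by
    simp only [chain, Bool.and_eq_true, beq_iff_eq] at k3
    obtain ⟨rfl, k4⟩ := k3
    obtain ⟨k5, k6⟩ := mulm_spec (l := l) hc k1 h
    refine chain_spec hc hh r (e + 1) _ k5 ?_ k4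
    have e1 : toP l h ^ (e + 1) - toP l (mulm l c cur h) =
        (toP l h ^ e - toP l cur) * toP l h +
          (toP l h * toP l cur - toP l (mulm l c cur h)) := by
      ring
    rw [e1]
    exact dvd_add (Dvd.dvd.mul_right k2 _) k6

theorem toP_subX (hl : 1 < l) {w : List ℕ} (hw : 1 < w.length) :
    toP l (subX l w) = toP l w - X := by
  obtain ⟨a, w', rfl⟩ : ∃ a w', w = a :: w' := by
    cases w with
    | nil => simp at hw
    | cons a w' => exact ⟨a, w', rfl⟩
  obtain ⟨b, w'', rfl⟩ : ∃ b w'', w' = b :: w'' := by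
    cases w' with
    | nil => simp at hw
    | cons b w'' => exact ⟨b, w'', rfl⟩
  simp only [subX, toP]
  have : ((b + (l - 1) : ℕ) : ZMod l) = b - 1 := by
    rw [Nat.cast_add, Nat.cast_sub hl.le]
    simp
    ring
  rw [this, C_sub, C_1]
  ring

theorem subX_length (w : List ℕ) : (subX l w).length = w.length := by
  cases w with
  | nil => rfl
  | cons a w =>
    cases w with
    | nil => rfl
    | cons b w => rfl

theorem test_spec [Fact l.Prime] {c : List ℕ} (hc : 1 < c.length) :
    ∀ (r : List (List (Bool × List ℕ) × List ℕ × List ℕ)) (h : List ℕ) (k : ℕ),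
      h.length = c.length → X ^ c.length - toP l c ∣ X ^ l ^ k - toP l h → test l c h r = true →
      ∀ i, k < i → i ≤ k + r.length →
        IsCoprime (X ^ l ^ i - X : (ZMod l)[X]) (X ^ c.length - toP l c)
  | [], h, k, _, _, _, i, h1, h2 => by
    simp at h2
    omega
  | (st, w, a) :: r, h, k, hh, hk, ht, i, h1, h2 => by
    have hc0 : c ≠ [] := by
      rintro rfl
      simp at hc
    simp only [test, Bool.and_eq_true, beq_iff_eq] at ht
    obtain ⟨⟨⟨t1, t2⟩, t3⟩, t4⟩ := ht
    obtain ⟨-, c2⟩ := chain_spec (l := l) hc0 hh st 1 h hh (by simp) t1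
    have hk' : X ^ c.length - toP l c ∣ X ^ l ^ (k + 1) - toP l w := by
      have e1 : (X ^ l ^ (k + 1) - toP l w : (ZMod l)[X]) =
          (X ^ l ^ k - toP l h) ^ l + (toP l h ^ l - toP l w) := by
        rw [sub_pow_char, ← pow_mul, ← pow_succ]
        ring
      rw [e1]
      exact dvd_add (dvd_pow hk (Fact.out : l.Prime).ne_zero) c2
    rcases Nat.lt_or_ge (k + 1) i with h3 | h3
    · exact test_spec hc r w (k + 1) t3 hk' t4 i h3 (by simp at h2; omega)
    · obtain rfl : i = k + 1 := by omega
      obtain ⟨s1, s2⟩ := mulm_spec (l := l) hc0 (v := subX l w) (by rw [subX_length, t3]) a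
      rw [t2, toP_subX (Fact.out : l.Prime).one_lt (by rw [t3]; exact hc)] at s2
      simp only [toP, toP_replicate, mul_zero, add_zero, Nat.cast_one, C_1] at s2
      have s3 : X ^ c.length - toP l c ∣ toP l a * (X ^ l ^ (k + 1) - X) - 1 := by
        have e1 : toP l a * (X ^ l ^ (k + 1) - X) - 1 =
            toP l a * (X ^ l ^ (k + 1) - toP l w) + (toP l a * (toP l w - X) - 1) := by
          ring
        rw [e1]
        exact dvd_add (Dvd.dvd.mul_left hk' _) s2
      obtain ⟨q, hq⟩ := s3
      exact ⟨toP l a, -q, by linear_combination hq⟩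

/-- `X` as a residue of length `n` -/
def resX (n : ℕ) : List ℕ := 0 :: 1 :: List.replicate (n - 2) 0

theorem irreducible_of_test (hl : l.Prime) {c : List ℕ} (hc : 1 < c.length)
    (hm : (X ^ c.length - toP l c).Monic) (hd : (X ^ c.length - toP l c).natDegree = c.length)
    {r : List (List (Bool × List ℕ) × List ℕ × List ℕ)} (hr : c.length / 2 ≤ r.length)
    (ht : test l c (resX c.length) r = true) : Irreducible (X ^ c.length - toP l c) := by
  have : Fact l.Prime := ⟨hl⟩
  have hX : toP l (resX c.length) = X := by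
    simp [resX, toP, toP_replicate]
  have key := test_spec hc r (resX c.length) 0 (by simp [resX]; omega) (by rw [hX]; simp) ht
  rw [hm.irreducible_iff_natDegree']
  refine ⟨fun h0 => ?_, fun g' g _ hg hgg hmem => ?_⟩
  · rw [h0, natDegree_one] at hd
    omega
  · obtain ⟨k1, k2⟩ := Finset.mem_Ioc.1 hmem
    rw [hd] at k2
    have hnu : ¬ IsUnit g := by
      intro hu
      rw [natDegree_eq_zero_of_isUnit hu] at k1
      omega
    obtain ⟨p, hp, hpg⟩ := WfDvdMonoid.exists_irreducible_factor hnu hg.ne_zero
    have hp1 : 1 ≤ p.natDegree := hp.natDegree_pos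
    have hp2 : p.natDegree ≤ g.natDegree := natDegree_le_of_dvd hpg hg.ne_zero
    have h5 := key p.natDegree (by omega) (by omega)
    have h6 : p ∣ X ^ l ^ p.natDegree - X := by
      have := hp.natDegree_dvd_iff_dvd_X_pow_card_pow_sub_X.1 (dvd_refl p.natDegree)
      rwa [Nat.card_zmod] at this
    exact hp.not_isUnit (h5.isUnit_of_dvd' h6 (hpg.trans (Dvd.intro_left g' hgg)))

end Pool.Agent.Lib_helper73.DEG
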