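import Mathlib
import Pool.Agent.Lib_helper73.DEG.Irr2
import Pool.Agent.Lib_helper73.DEG.Fld

/-!
Number fields given by a monic polynomial which is irreducible modulo a small prime (second form),
and identities in them by lists of integers.
-/

namespace Pool.Agent.Lib_helper73.DEG

open Polynomial
open Pool.Agent.Lib_helper48.EVEN (Gen)

/-- minus the coefficients, modulo `l`, the lowest one first -/
def cl (l : ℕ) (as : List ℤ) : List ℕ := (as.map fun a : ℤ => ((-a) % (l : ℤ)).toNat).reverse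

theorem toP_append {l : ℕ} (v : List ℕ) : ∀ u : List ℕ,
    toP l (u ++ v) = toP l u + X ^ u.length * toP l v
  | [] => by simp [toP]
  | a :: u => by
    rw [List.cons_append, toP, toP_append v u, toP, List.length_cons, pow_succ]
    ring

theorem cl_length (l : ℕ) (as : List ℤ) : (cl l as).length = as.length := by simp [cl]

theorem hz_map2 {l : ℕ} (hl : l ≠ 0) : ∀ (as : List ℤ) (q : ℤ[X]),
    (hz q as).map (Int.castRingHom (ZMod l)) =
      q.map (Int.castRingHom (ZMod l)) * X ^ as.length - toP l (cl l as)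
  | [], q => by simp [hz, cl, toP]
  | a :: as, q => by
    have h1 : ((((-a) % (l : ℤ)).toNat : ℕ) : ZMod l) = -(a : ZMod l) := by
      have h2 : ((((-a) % (l : ℤ)).toNat : ℤ) : ZMod l) = (((-a) % (l : ℤ) : ℤ) : ZMod l) := by
        rw [Int.toNat_of_nonneg (Int.emod_nonneg _ (by exact_mod_cast hl))]
      rw [← Int.cast_natCast (R := ZMod l), h2, ZMod.intCast_mod, Int.cast_neg]
    have h3 : cl l (a :: as) = cl l as ++ [((-a) % (l : ℤ)).toNat] := by simp [cl]
    rw [hz, hz_map2 hl as, h3, toP_append, cl_length, toP, toP, h1, Polynomial.map_add,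
      Polynomial.map_mul, map_X, map_C, List.length_cons, pow_succ, C_neg, eq_intCast]
    ring

/-- value of the polynomial with the coefficients `v`, the lowest one first -/
def lev {K : Type*} [Field K] (x : K) : List ℤ → K
  | [] => 0
  | a :: as => (a : K) + x * lev x as

theorem lev_append {K : Type*} [Field K] (x : K) (v : List ℤ) : ∀ u : List ℤ,
    lev x (u ++ v) = lev x u + x ^ u.length * lev x v
  | [] => by simp [lev]
  | a :: u => by
    rw [List.cons_append, lev, lev_append x v u, lev, List.length_cons, pow_succ]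
    ring

theorem foldl_lev {K : Type*} [Field K] (x : K) : ∀ (as : List ℤ) (q : K),
    as.foldl (fun (v : K) (a : ℤ) => x * v + (a : K)) q = q * x ^ as.length + lev x as.reverse
  | [], q => by simp [lev]
  | a :: as, q => by
    rw [List.foldl_cons, foldl_lev x as, List.reverse_cons, lev_append, List.length_reverse,
      List.length_cons, lev, lev, pow_succ]
    ring

/-- sum -/
def ladd : List ℤ → List ℤ → List ℤ
  | [], v => v
  | a :: u, [] => a :: u
  | a :: u, b :: v => (a + b) :: ladd u v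

/-- multiple -/
def lsc (c : ℤ) (v : List ℤ) : List ℤ := v.map fun a => c * a

/-- product -/
def lmul : List ℤ → List ℤ → List ℤ
  | [], _ => []
  | a :: u, v => ladd (lsc a v) (0 :: lmul u v)

variable {K : Type*} [Field K] (x : K)

theorem lev_ladd : ∀ u v : List ℤ, lev x (ladd u v) = lev x u + lev x v
  | [], v => by simp [ladd, lev]
  | a :: u, [] => by simp [ladd, lev]
  | a :: u, b :: v => by
    rw [ladd, lev, lev, lev, lev_ladd u v]
    push_cast
    ring

theorem lev_lsc (c : ℤ) : ∀ v : List ℤ, lev x (lsc c v) = c * lev x v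
  | [] => by simp [lsc, lev]
  | a :: v => by
    have := lev_lsc c v
    unfold lsc at *
    rw [List.map_cons, lev, lev, this]
    push_cast
    ring

theorem lev_lmul : ∀ u v : List ℤ, lev x (lmul u v) = lev x u * lev x v
  | [], v => by simp [lmul, lev]
  | a :: u, v => by
    rw [lmul, lev_ladd, lev_lsc, lev, lev_lmul u v, lev]
    push_cast
    ring

theorem lev_zero : ∀ v : List ℤ, (v.all fun a => a == 0) = true → lev x v = 0
  | [], _ => rfl
  | a :: v, h => by
    rw [List.all_cons, Bool.and_eq_true, beq_iff_eq] at h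
    rw [lev, h.1, lev_zero v h.2]
    simp

/-- `n1 W' ^ 2 = n2 W ^ 2 + n3 W + n4` modulo `X ^ n + as`, with the quotient `Q` -/
def conic (as W W' : List ℤ) (n1 n2 n3 n4 : ℤ) (Q : List ℤ) : Bool :=
  (ladd (lsc n1 (lmul W' W')) (ladd (lsc (-n2) (lmul W W)) (ladd (lsc (-n3) W)
    (ladd [-n4] (lsc (-1) (lmul Q (as.reverse ++ [1]))))))).all fun a => a == 0

theorem conic_spec {as W W' Q : List ℤ} {n1 n2 n3 n4 : ℤ} [CharZero K] (hx : lev x (as.reverse ++ [1]) = 0)
    (h : conic as W W' n1 n2 n3 n4 Q = true) {D D' q a c : ℚ} (hD : D ≠ 0) (hD' : D' ≠ 0)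
    (h1 : n1 ≠ 0) (h2 : (n2 : ℚ) * D ^ 2 = q * n1 * D' ^ 2)
    (h3 : (n3 : ℚ) * D = 2 * q * a * n1 * D' ^ 2) (h4 : (n4 : ℚ) = (q * a ^ 2 + c) * n1 * D' ^ 2) :
    (lev x W' / (D' : K)) ^ 2 = (q : K) * (lev x W / (D : K) + (a : K)) ^ 2 + (c : K) := by
  have e := lev_zero x _ h
  rw [lev_ladd, lev_lsc, lev_lmul, lev_ladd, lev_lsc, lev_lmul, lev_ladd, lev_lsc, lev_ladd,
    lev_lsc, lev_lmul, hx, lev, lev] at e
  have k2 : (n2 : K) * (D : K) ^ 2 = q * n1 * (D' : K) ^ 2 := by exact_mod_cast congrArg (Rat.cast (K := K)) h2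
  have k3 : (n3 : K) * (D : K) = 2 * q * a * n1 * (D' : K) ^ 2 := by
    exact_mod_cast congrArg (Rat.cast (K := K)) h3
  have k4 : (n4 : K) = (q * (a : K) ^ 2 + c) * n1 * (D' : K) ^ 2 := by
    exact_mod_cast congrArg (Rat.cast (K := K)) h4
  have d1 : (D : K) ≠ 0 := by exact_mod_cast hD
  have d2 : (D' : K) ≠ 0 := by exact_mod_cast hD'
  have d3 : (n1 : K) ≠ 0 := by exact_mod_cast h1
  push_cast at e
  have e2 : (n1 : K) * lev x W' ^ 2 = n2 * lev x W ^ 2 + n3 * lev x W + n4 := by
    linear_combination e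
  rw [div_pow, div_eq_iff (pow_ne_zero 2 d2)]
  apply mul_left_cancel₀ (mul_ne_zero d3 (pow_ne_zero 2 d1))
  have e3 : (lev x W / (D : K)) * D = lev x W := div_mul_cancel₀ _ d1
  set u := lev x W / (D : K) with hu
  rw [← e3] at e2
  linear_combination (D : K) ^ 2 * e2 + D ^ 2 * u ^ 2 * k2 + D ^ 2 * u * k3 + D ^ 2 * k4

/-- A number field with a generator `x` which is a root of `X ^ n + as`. -/
theorem exists_field2 {l : ℕ} (hl : l.Prime) (as : List ℤ) (h1 : 1 < as.length)
    {r : List (List (Bool × List ℕ) × List ℕ × List ℕ)} (hr : as.length / 2 ≤ r.length)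
    (ht : test l (cl l as) (resX as.length) r = true) :
    ∃ (K : Type) (_ : Field K) (_ : NumberField K), Module.finrank ℚ K = as.length ∧
      ∃ x : K, Gen x ∧ lev x (as.reverse ++ [1]) = 0 := by
  obtain ⟨k1, k2⟩ := hz_monic as 1 monic_one
  rw [natDegree_one, zero_add] at k2
  have hirrl : Irreducible ((hz 1 as).map (Int.castRingHom (ZMod l))) := by
    have : Fact l.Prime := ⟨hl⟩
    have hm := k1.map (Int.castRingHom (ZMod l))
    have hdeg : ((hz 1 as).map (Int.castRingHom (ZMod l))).natDegree = as.length := by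
      rw [k1.natDegree_map, k2]
    rw [hz_map2 hl.ne_zero, Polynomial.map_one, one_mul, ← cl_length l as] at hm hdeg ⊢
    exact irreducible_of_test hl (by rw [cl_length]; exact h1) hm hdeg
      (by rw [cl_length]; exact hr) (by rw [cl_length]; exact ht)
  have hfl : Fact l.Prime := ⟨hl⟩
  have hirr : Irreducible (hz 1 as) := k1.irreducible_of_irreducible_map _ _ hirrl
  have hirrQ : Irreducible ((hz 1 as).map (Int.castRingHom ℚ)) :=
    (Polynomial.IsPrimitive.Int.irreducible_iff_irreducible_map_cast k1.isPrimitive).1 hirr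
  have hfact : Fact (Irreducible ((hz 1 as).map (Int.castRingHom ℚ))) := ⟨hirrQ⟩
  have hmQ := k1.map (Int.castRingHom ℚ)
  have hdQ : ((hz 1 as).map (Int.castRingHom ℚ)).natDegree = as.length := by
    rw [k1.natDegree_map, k2]
  obtain ⟨i1, i2, i3, i4⟩ := field_of_root (AdjoinRoot.instAlgebra _) hirrQ hmQ
    (AdjoinRoot.root ((hz 1 as).map (Int.castRingHom ℚ)))
    (by rw [AdjoinRoot.aeval_eq, AdjoinRoot.mk_self])
    (by rw [(AdjoinRoot.powerBasis hirrQ.ne_zero).finrank, AdjoinRoot.powerBasis_dim])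
    (AdjoinRoot.powerBasis hirrQ.ne_zero).finite
  refine ⟨AdjoinRoot ((hz 1 as).map (Int.castRingHom ℚ)), inferInstance, i1, by rw [i2, hdQ],
    AdjoinRoot.root _, i3, ?_⟩
  have e := hz_aeval (AdjoinRoot.root ((hz 1 as).map (Int.castRingHom ℚ))) as 1
  rw [map_one, foldl_lev, one_mul] at e
  have e3 : AdjoinRoot.root ((hz 1 as).map (Int.castRingHom ℚ)) ^ as.length +
      lev (AdjoinRoot.root ((hz 1 as).map (Int.castRingHom ℚ))) as.reverse = 0 := by
    rw [← e, ← i4]
    exact (aeval_map_algebraMap ℚ _ _).symm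
  rw [lev_append, List.length_reverse, lev, lev]
  simp only [Int.cast_one, mul_zero, add_zero, mul_one]
  rw [add_comm]
  exact e3

end Pool.Agent.Lib_helper73.DEG
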